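import Pool.Agent.H66.OD.Defs

/-!
# Simplex faces of lattice polytopes (definitions)

Definitions for MP_a35d42_co (Oda: is every smooth lattice polytope IDP?).
-/

namespace H98OD

open H66OD

/-- A face of `P` of dimension `k`: a nonempty convex extreme subset of dimension `k`. -/
def IsFaceOfDim {d : ℕ} (k : ℕ) (P F : Set (Fin d → ℝ)) : Prop :=
  F.Nonempty ∧ Convex ℝ F ∧ IsExtreme ℝ P F ∧ Module.finrank ℝ (vectorSpan ℝ F) = k

/-- A face of `P` which is a simplex of dimension `k`: a face of dimension `k` which is the convex hull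
of `k + 1` points. -/
def IsSimplexFace {d : ℕ} (k : ℕ) (P F : Set (Fin d → ℝ)) : Prop :=
  IsFaceOfDim k P F ∧ ∃ p : Fin (k + 1) → Fin d → ℝ, F = convexHull ℝ (Set.range p)

/-- Every simplex face `F` of `P` of dimension `k`, `2 ≤ k < d`, has all its edges of lattice length at
least `k`: if `v` is a vertex of `P` in `F` and `e` a primitive edge vector of `P` at `v` along an edge
contained in `F` (`v + t e` is in `F` for some `t > 0`), then `v + k e` is in `P`. -/
def LongSimplexFaces {d : ℕ} (P : Set (Fin d → ℝ)) : Prop :=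
  ∀ (k : ℕ) (F : Set (Fin d → ℝ)), 2 ≤ k → k < d → IsSimplexFace k P F →
    ∀ v ∈ P.extremePoints ℝ, v ∈ F → ∀ e ∈ edgeVectors P v, (∃ t : ℝ, 0 < t ∧ v + t • toR e ∈ F) →
      v + (k : ℝ) • toR e ∈ P

/-- `P` has no triangular two-dimensional face: no face of dimension two is the convex hull of three
points. -/
def NoTriangularFace {d : ℕ} (P : Set (Fin d → ℝ)) : Prop :=
  ∀ F : Set (Fin d → ℝ), IsFaceOfDim 2 P F →
    ¬∃ a b c : Fin d → ℝ, F = convexHull ℝ {a, b, c}

end H98OD
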