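import Pool.Agent.H98.OD.Simp
import Pool.Agent.H19.OZ.Idp

/-!
# Smooth simplices have the integer decomposition property

`spx_dir`: if all edges of `P` at the vertex `v` end in the facet `a` not containing `v`, then
`u a ⬝ e v i = -1` for all `i`: let `q` be the vertex on the edge with direction `i` farthest from `v`; it is in
the facet `a` and in the facets `u v l`, `l ≠ i`; let `u q m = u a`; then `e q m` is orthogonal to `u v l` for
`l ≠ i`, so it is a multiple `c e v i`, and `1 = u q m ⬝ e q m = c (u a ⬝ e v i)` in integers.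
So `P = {z | pf (v,i) z ≥ 0, ∑ i, pf (v,i) z ≤ N}`, `N = pf a v`.
-/

namespace H98OD

open H66OD H19OZ Matrix

variable {d : ℕ} {P : Set (Fin d → ℝ)}

/-- `P` is a simplex seen from the vertex `v`: all edges at `v` end in the facet `a`. -/
def SpxAt (D : SD P) (v : Fin d → ℤ) (a : (Fin d → ℤ) × Fin d) : Prop :=
  v ∈ D.Vt ∧ a.1 ∈ D.Vt ∧ 0 < pf D a (toR v) ∧
    ∀ i, ∃ t : ℝ, 0 < t ∧ toR v + t • toR (D.e v i) ∈ P ∧ pf D a (toR v + t • toR (D.e v i)) = 0

theorem spx_dir (D : SD P) {v : Fin d → ℤ} {a : (Fin d → ℤ) × Fin d} (h : SpxAt D v a) (i : Fin d) :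
    D.u a.1 a.2 ⬝ᵥ D.e v i = -1 ∧ toR v + pf D a (toR v) • toR (D.e v i) ∈ P := by
  classical
  obtain ⟨hv, ha, h0, hall⟩ := h
  obtain ⟨t, ht, htP, ht0⟩ := hall i
  set w := toR v + t • toR (D.e v i) with hw
  have hwl : ∀ l, l ≠ i → pf D (v, l) w = 0 := by
    intro l hl
    rw [hw, pf_add, pf_self, zero_add, dotProduct_smul, ue D hv, if_neg hl, smul_zero]
  have hwi : pf D (v, i) w = t := by
    rw [hw, pf_add, pf_self, zero_add, dotProduct_smul, ue D hv, if_pos rfl, smul_eq_mul, mul_one]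
  -- the farthest vertex of the edge
  obtain ⟨q, hqF, hqmax⟩ := Finset.exists_max_image
    (D.Vt.filter fun p => ∀ l, l ≠ i → pf D (v, l) (toR p) = 0)
    (fun p => pf D (v, i) (toR p)) ⟨v, Finset.mem_filter.2 ⟨hv, fun l _ => pf_self D v l⟩⟩
  obtain ⟨hqV, hqG⟩ := Finset.mem_filter.1 hqF
  have hqP : toR q ∈ P := D.vmem hqV
  have hqt : t ≤ pf D (v, i) (toR q) := by
    have hsum : ∀ z : Fin d → ℝ, toR (∑ l ∈ Finset.univ.erase i, D.u v l) ⬝ᵥ (z - toR v) =
        ∑ l ∈ Finset.univ.erase i, pf D (v, l) z := by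
      intro z
      rw [toR_sum, sum_dotProduct]
      rfl
    have key := Flg_face D (toR (∑ l ∈ Finset.univ.erase i, D.u v l)) (toR v)
      (-toR (D.u v i)) (toR v) (-pf D (v, i) (toR q)) (by
        intro z hz
        rw [hsum]
        exact Finset.sum_nonneg fun l _ => pf_nn D (a := (v, l)) hv hz) (by
        intro p hp hp0
        rw [hsum] at hp0
        have h1 := hqmax p (Finset.mem_filter.2 ⟨hp, fun l hl =>
          (Finset.sum_eq_zero_iff_of_nonneg
            (fun l _ => pf_nn D (a := (v, l)) hv (D.vmem hp))).1 hp0 l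
            (Finset.mem_erase.2 ⟨hl, Finset.mem_univ _⟩)⟩)
        rw [neg_dotProduct]
        have h2 : toR (D.u v i) ⬝ᵥ (toR p - toR v) = pf D (v, i) (toR p) := rfl
        rw [h2]
        linarith) w htP (by
        rw [hsum]
        exact Finset.sum_eq_zero fun l hl => hwl l (Finset.ne_of_mem_erase hl))
    rw [neg_dotProduct] at key
    have h2 : toR (D.u v i) ⬝ᵥ (w - toR v) = t := hwi
    rw [h2] at key
    linarith
  -- the expansion of points of the edge
  have hedge : ∀ z, (∀ l, l ≠ i → pf D (v, l) z = 0) →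
      z = toR v + pf D (v, i) z • toR (D.e v i) := by
    intro z hz
    have e2 := D.span v hv (z - toR v)
    rw [Finset.sum_eq_single i] at e2
    · calc z = toR v + (z - toR v) := by abel
        _ = toR v + (toR (D.u v i) ⬝ᵥ (z - toR v)) • toR (D.e v i) :=
          congrArg (fun w => toR v + w) e2
    · intro l _ hl
      have e3 : toR (D.u v l) ⬝ᵥ (z - toR v) = 0 := hz l hl
      rw [e3, zero_smul]
    · intro h'
      exact absurd (Finset.mem_univ _) h'
  set g : ℝ := toR (D.u a.1 a.2) ⬝ᵥ toR (D.e v i) with hg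
  have hg0 : pf D a (toR v) + t * g = 0 := by
    rw [hw, pf_add, dotProduct_smul, smul_eq_mul] at ht0
    exact ht0
  have hgneg : g < 0 := by
    by_contra hcon
    have := mul_nonneg ht.le (not_lt.1 hcon)
    linarith
  have hqa : pf D a (toR q) = 0 := by
    have e1 := hedge _ hqG
    have e2 : pf D a (toR q) = pf D a (toR v) + pf D (v, i) (toR q) * g := by
      conv_lhs => rw [e1]
      rw [pf_add, dotProduct_smul, smul_eq_mul]
    have e3 := pf_nn D ha hqP
    have e4 : pf D (v, i) (toR q) * g ≤ t * g := mul_le_mul_of_nonpos_right hqt hgneg.le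
    linarith
  obtain ⟨m, hm⟩ := gf_dual D ha hqV a.2 (show toR q ∈ Gf D a.1 a.2 from ⟨hqP, hqa⟩)
  have horth : ∀ l, l ≠ i → D.u v l ⬝ᵥ D.e q m = 0 := by
    intro l hl
    obtain ⟨n, hn⟩ := gf_dual D hv hqV l ⟨hqP, hqG l hl⟩
    rw [← hn, D.dual q hqV, if_neg]
    rintro rfl
    have e1 : D.u v l = D.u a.1 a.2 := hn.symm.trans hm
    have e2 : pf D a (toR v) = pf D (v, l) (toR v) := by
      have e3 : pf D a (toR v) = pf D a (toR q) + toR (D.u a.1 a.2) ⬝ᵥ (toR v - toR q) := by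
        rw [← pf_add]
        congr 1
        abel
      have e4 : pf D (v, l) (toR v) = pf D (v, l) (toR q) +
          toR (D.u v l) ⬝ᵥ (toR v - toR q) := by
        have := pf_add D (v, l) (toR q) (toR v - toR q)
        rw [← this]
        congr 1
        abel
      rw [e3, e4, hqa, hqG l hl, e1]
    rw [pf_self] at e2
    linarith
  have hmul : toR (D.e q m) = ((D.u v i ⬝ᵥ D.e q m : ℤ) : ℝ) • toR (D.e v i) := by
    have e2 := D.span v hv (toR (D.e q m))
    rw [Finset.sum_eq_single i] at e2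
    · rw [toR_dot] at e2
      exact e2
    · intro l _ hl
      rw [toR_dot, horth l hl, Int.cast_zero, zero_smul]
    · intro h'
      exact absurd (Finset.mem_univ _) h'
  have hone : (D.u a.1 a.2 ⬝ᵥ D.e v i) * (D.u v i ⬝ᵥ D.e q m) = 1 := by
    have e1 : toR (D.u q m) ⬝ᵥ toR (D.e q m) = 1 := by rw [ue D hqV, if_pos rfl]
    rw [hm, hmul, dotProduct_smul, smul_eq_mul, toR_dot] at e1
    have e2 : (D.u v i ⬝ᵥ D.e q m) * (D.u a.1 a.2 ⬝ᵥ D.e v i) = 1 := by exact_mod_cast e1
    rw [mul_comm]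
    exact e2
  have hgi : g = ((D.u a.1 a.2 ⬝ᵥ D.e v i : ℤ) : ℝ) := by rw [hg, toR_dot]
  have hneg : D.u a.1 a.2 ⬝ᵥ D.e v i < 0 := by
    rw [hgi] at hgneg
    exact_mod_cast hgneg
  have hm1 : D.u a.1 a.2 ⬝ᵥ D.e v i = -1 := by
    rcases Int.eq_one_or_neg_one_of_mul_eq_one hone with h4 | h4
    · omega
    · exact h4
  refine ⟨hm1, ?_⟩
  have e5 : pf D a (toR v) = t := by
    rw [hgi, hm1] at hg0
    push_cast at hg0
    linarith
  rw [e5]
  exact htP

theorem spx_sum (D : SD P) {v : Fin d → ℤ} {a : (Fin d → ℤ) × Fin d} (h : SpxAt D v a)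
    (z : Fin d → ℝ) : pf D a z = pf D a (toR v) - ∑ i, pf D (v, i) z := by
  rw [pf_exp D a h.1 z, sub_eq_add_neg, ← Finset.sum_neg_distrib]
  congr 1
  refine Finset.sum_congr rfl fun i _ => ?_
  rw [toR_dot, (spx_dir D h i).1]
  push_cast
  ring

theorem spx_mem (D : SD P) {v : Fin d → ℤ} {a : (Fin d → ℤ) × Fin d} (h : SpxAt D v a)
    (s : Fin d → ℝ) (hs : ∀ i, 0 ≤ s i) (hsum : ∑ i, s i ≤ pf D a (toR v)) :
    toR v + ∑ i, s i • toR (D.e v i) ∈ P := by
  classical
  set N := pf D a (toR v) with hN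
  have hNpos : 0 < N := h.2.2.1
  have h5 := D.convex.sum_mem (t := (Finset.univ : Finset (Option (Fin d))))
    (w := fun o => o.elim (1 - ∑ i, s i / N) fun i => s i / N)
    (z := fun o => o.elim (toR v) fun i => toR v + N • toR (D.e v i))
    (by
      rintro (_ | i) _
      · have : ∑ i, s i / N ≤ 1 := by
          rw [← Finset.sum_div, div_le_one hNpos]
          exact hsum
        simpa using this
      · exact div_nonneg (hs i) hNpos.le)
    (by
      rw [Fintype.sum_option]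
      simp)
    (by
      rintro (_ | i) _
      · exact D.vmem h.1
      · exact (spx_dir D h i).2)
  rw [Fintype.sum_option] at h5
  have h6 : (1 - ∑ i, s i / N) • toR v + ∑ i, (s i / N) • (toR v + N • toR (D.e v i)) =
      toR v + ∑ i, s i • toR (D.e v i) := by
    have e1 : ∑ i, (s i / N) • (toR v + N • toR (D.e v i)) =
        (∑ i, s i / N) • toR v + ∑ i, s i • toR (D.e v i) := by
      rw [Finset.sum_smul, ← Finset.sum_add_distrib]
      refine Finset.sum_congr rfl fun i _ => ?_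
      rw [smul_add, smul_smul, div_mul_cancel₀ _ hNpos.ne']
    rw [e1, ← add_assoc, ← add_smul, sub_add_cancel, one_smul]
  rw [← h6]
  exact h5

/-- A vector of natural numbers with prescribed sum below a given vector. -/
theorem exists_le_sum {ι : Type*} (s : Finset ι) (f : ι → ℕ) (n : ℕ) (hn : n ≤ ∑ i ∈ s, f i) :
    ∃ g : ι → ℕ, (∀ i, g i ≤ f i) ∧ ∑ i ∈ s, g i = n := by
  classical
  induction n with
  | zero => exact ⟨fun _ => 0, fun _ => Nat.zero_le _, by simp⟩
  | succ n ih =>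
    obtain ⟨g, hg, hs⟩ := ih (by omega)
    obtain ⟨i, hi, hlt⟩ : ∃ i ∈ s, g i < f i := by
      by_contra hcon
      push Not at hcon
      have := Finset.sum_le_sum hcon
      omega
    refine ⟨Function.update g i (g i + 1), fun j => ?_, ?_⟩
    · by_cases h : j = i
      · subst h
        rw [Function.update_self]
        omega
      · rw [Function.update_of_ne h]
        exact hg j
    · rw [Finset.sum_update_of_mem hi, ← Finset.sum_erase_add _ _ hi] at *
      rw [Finset.sdiff_singleton_eq_erase]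
      omega

theorem spx_step (D : SD P) {v : Fin d → ℤ} {a : (Fin d → ℤ) × Fin d} (h : SpxAt D v a)
    (k : ℕ) (hk : 1 ≤ k) (x : Fin d → ℤ) {y : Fin d → ℝ} (hy : y ∈ P)
    (hxy : toR x = ((k : ℝ) + 1) • y) :
    ∃ p : Fin d → ℤ, toR p ∈ P ∧ ∃ z ∈ P, toR (x - p) = (k : ℝ) • z := by
  classical
  have hv := h.1
  have hkR : (0 : ℝ) < (k : ℝ) := by exact_mod_cast hk
  -- integer coordinates of `x - (k+1) v`
  set S : Fin d → ℤ := fun i => D.u v i ⬝ᵥ (x - ((k : ℤ) + 1) • v) with hS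
  have hSR : ∀ i, ((S i : ℤ) : ℝ) = ((k : ℝ) + 1) * pf D (v, i) y := by
    intro i
    rw [hS]
    dsimp only
    rw [← toR_dot, toR_sub, toR_zsmul, hxy]
    simp only [pf]
    push_cast
    rw [← smul_sub, dotProduct_smul, smul_eq_mul]
  have hS0 : ∀ i, 0 ≤ S i := by
    intro i
    have h1 : (0 : ℝ) ≤ ((S i : ℤ) : ℝ) := by
      rw [hSR]
      exact mul_nonneg (by positivity) (pf_nn D (a := (v, i)) hv hy)
    exact_mod_cast h1
  obtain ⟨N, hN⟩ : ∃ N : ℕ, pf D a (toR v) = (N : ℝ) := by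
    have e1 := pf_int D a v
    have e2 := h.2.2.1.le
    rw [e1] at e2
    have e3 : 0 ≤ D.u a.1 a.2 ⬝ᵥ (v - a.1) := by exact_mod_cast e2
    obtain ⟨N, hN⟩ := Int.eq_ofNat_of_zero_le e3
    refine ⟨N, ?_⟩
    rw [e1, hN]
    simp
  set F : Fin d → ℕ := fun i => (S i).toNat with hF
  have hFS : ∀ i, ((F i : ℕ) : ℤ) = S i := fun i => Int.toNat_of_nonneg (hS0 i)
  have hFR : ∀ i, ((F i : ℕ) : ℝ) = ((k : ℝ) + 1) * pf D (v, i) y := by
    intro i
    rw [← hSR i, ← hFS i]
    simp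
  have hFsum : ((∑ i, F i : ℕ) : ℝ) ≤ ((k : ℝ) + 1) * N := by
    push_cast
    rw [Finset.sum_congr rfl fun i _ => hFR i, ← Finset.mul_sum]
    have e1 := spx_sum D h y
    have e2 := pf_nn D h.2.1 hy
    refine mul_le_mul_of_nonneg_left ?_ (by positivity)
    linarith
  obtain ⟨G, hG, hGs⟩ := exists_le_sum Finset.univ F (min N (∑ i, F i)) (min_le_right _ _)
  have hGN : ((∑ i, G i : ℕ) : ℝ) ≤ N := by
    rw [hGs]
    exact_mod_cast min_le_left _ _
  have hrest : ∑ i, ((F i : ℝ) - G i) ≤ (k : ℝ) * N := by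
    rw [Finset.sum_sub_distrib]
    have e1 : ∑ i, (G i : ℝ) = ((min N (∑ i, F i) : ℕ) : ℝ) := by
      rw [← hGs]
      push_cast
      rfl
    have e2 : ∑ i, (F i : ℝ) = ((∑ i, F i : ℕ) : ℝ) := by push_cast; rfl
    rw [e1, e2]
    rcases le_total N (∑ i, F i) with hle | hle
    · rw [min_eq_left hle]
      linarith
    · rw [min_eq_right hle, sub_self]
      positivity
  refine ⟨v + ∑ i, (G i : ℤ) • D.e v i, ?_, toR v + ∑ i, (((F i : ℝ) - G i) / k) • toR (D.e v i), ?_, ?_⟩
  · rw [toR_add, toR_sum]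
    have e1 := spx_mem D h (fun i => (G i : ℝ)) (fun i => Nat.cast_nonneg _) (by
      rw [hN]
      exact_mod_cast hGN)
    convert e1 using 3 with i
    rw [toR_zsmul]
    simp
  · refine spx_mem D h _ (fun i => div_nonneg (sub_nonneg.2 (by exact_mod_cast hG i)) hkR.le) ?_
    rw [← Finset.sum_div, div_le_iff₀ hkR, hN]
    linarith
  · have e1 : toR x - ((k : ℝ) + 1) • toR v = ∑ i, (F i : ℝ) • toR (D.e v i) := by
      have e2 := D.span v hv (toR x - ((k : ℝ) + 1) • toR v)
      refine e2.trans (Finset.sum_congr rfl fun i _ => ?_)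
      congr 1
      rw [hFR i, hxy, ← smul_sub, dotProduct_smul, smul_eq_mul]
      rfl
    have e3 : ∑ i, toR ((G i : ℤ) • D.e v i) = ∑ i, (G i : ℝ) • toR (D.e v i) := by
      refine Finset.sum_congr rfl fun i _ => ?_
      rw [toR_zsmul]
      simp
    rw [toR_sub, toR_add, toR_sum, e3, smul_add, Finset.smul_sum]
    have e4 : ∑ i, (k : ℝ) • ((((F i : ℝ) - G i) / k) • toR (D.e v i)) =
        ∑ i, (F i : ℝ) • toR (D.e v i) - ∑ i, (G i : ℝ) • toR (D.e v i) := by
      rw [← Finset.sum_sub_distrib]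
      refine Finset.sum_congr rfl fun i _ => ?_
      rw [smul_smul, mul_div_cancel₀ _ hkR.ne', sub_smul]
    rw [e4, ← e1, add_smul, one_smul]
    abel

theorem idp_of_step (h : ∀ (k : ℕ), 1 ≤ k → ∀ (x : Fin d → ℤ) (y : Fin d → ℝ), y ∈ P →
    toR x = ((k : ℝ) + 1) • y → ∃ p : Fin d → ℤ, toR p ∈ P ∧ ∃ z ∈ P, toR (x - p) = (k : ℝ) • z) :
    HasIDP P := by
  intro k hk
  induction k, hk using Nat.le_induction with
  | base =>
    rintro x ⟨y, hy, hxy⟩
    rw [Nat.cast_one, one_smul] at hxy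
    refine ⟨fun _ => x, fun _ => ?_, ?_⟩
    · rw [hxy]
      exact hy
    · simp
  | succ k hk ih =>
    rintro x ⟨y, hy, hxy⟩
    rw [Nat.cast_add, Nat.cast_one] at hxy
    obtain ⟨p, hp, z, hz, hpz⟩ := h k hk x y hy hxy
    obtain ⟨f, hf, hs⟩ := ih (x - p) ⟨z, hz, hpz⟩
    refine ⟨Fin.cons p f, fun i => ?_, ?_⟩
    · refine Fin.cases ?_ (fun j => ?_) i
      · rw [Fin.cons_zero]
        exact hp
      · rw [Fin.cons_succ]
        exact hf j
    · rw [Fin.sum_univ_succ, Fin.cons_zero]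
      simp only [Fin.cons_succ]
      rw [← hs]
      abel

theorem spx_idp (D : SD P) {v : Fin d → ℤ} {a : (Fin d → ℤ) × Fin d} (h : SpxAt D v a) : HasIDP P :=
  idp_of_step fun k hk x _ hy hxy => spx_step D h k hk x hy hxy

end H98OD
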