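import Pool.Agent.H19.OZ.Edg
import Pool.Agent.H98.OD.Spx

/-!
# Smooth polytopes whose simplex faces have long edges

`idp_of_longSimplexFaces` is the main theorem; `idp_of_noTriangle` (no triangular two-dimensional faces) and
`idp_of_edges` (all edges of lattice length at least `d - 1`) are consequences.
-/

namespace H98OD

open H66OD H19OZ Matrix

variable {d : ℕ} {P : Set (Fin d → ℝ)}

/-- A smooth lattice polytope all of whose simplex faces of dimension `k`, `2 ≤ k < d`, have edges of
lattice length at least `k`, has the integer decomposition property. -/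
theorem idp_of_longSimplexFaces (hP : IsSmooth P) (h : LongSimplexFaces P) : HasIDP P := by
  obtain ⟨D⟩ := sd_of_smooth P hP
  by_cases hs : ∃ v a, SpxAt D v a
  · obtain ⟨v, a, hva⟩ := hs
    exact spx_idp D hva
  · refine idp D (box_of_longSimplex D h fun v hv a ha h0 hall => hs ⟨v, a, hv, ha, h0, hall⟩)

/-- Consequence: no triangular two-dimensional faces (in particular: flag polytopes). -/
theorem idp_of_noTriangle (hP : IsSmooth P) (h : NoTriangularFace P) : HasIDP P := by
  obtain ⟨D⟩ := sd_of_smooth P hP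
  exact idp D (box_of_noTriangle D h)

/-- Consequence: all edges of lattice length at least `d - 1`. -/
theorem idp_of_edges (hP : IsSmooth P) (h : EdgesAtLeast (d - 1) P) : HasIDP P := by
  refine idp_of_longSimplexFaces hP fun k F hk hkd _ v hv _ e he _ => ?_
  have h1 := h v hv e he
  have hcv : Convex ℝ P := by
    obtain ⟨⟨S, hS⟩, -⟩ := hP
    rw [hS]
    exact convex_convexHull ℝ _
  have hd : (0 : ℝ) < ((d - 1 : ℕ) : ℝ) := by
    have : 0 < d - 1 := by omega
    exact_mod_cast this
  have hk1 : (k : ℝ) ≤ ((d - 1 : ℕ) : ℝ) := by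
    have : k ≤ d - 1 := by omega
    exact_mod_cast this
  have h3 := hcv (extremePoints_subset hv) h1 (a := 1 - (k : ℝ) / ((d - 1 : ℕ) : ℝ))
    (b := (k : ℝ) / ((d - 1 : ℕ) : ℝ))
    (by rw [sub_nonneg, div_le_one hd]; exact hk1) (by positivity) (by ring)
  have h4 : (1 - (k : ℝ) / ((d - 1 : ℕ) : ℝ)) • v +
      ((k : ℝ) / ((d - 1 : ℕ) : ℝ)) • (v + ((d - 1 : ℕ) : ℝ) • toR e) = v + (k : ℝ) • toR e := by
    rw [smul_add, smul_smul, div_mul_cancel₀ _ hd.ne', ← add_assoc, ← add_smul, sub_add_cancel,
      one_smul]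
  rw [h4] at h3
  exact h3

end H98OD
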