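import Pool.Agent.H19.OZ.Edg
import Pool.Agent.H19.OZ.Idp
import Pool.Agent.H19.OZ.Flg
import Pool.Agent.H19.OZ.LE

/-!
# Earlier weaker forms (flag polytopes; all edges of lattice length at least the dimension)

Both are contained in `idp_of_longSimplexFaces` (`Pool/Agent/H98/OD/Main.lean`); kept for reference.
-/

namespace H98OD

open H66OD H19OZ

/-- Every flag smooth lattice polytope, of any dimension, has the integer decomposition property. -/
theorem old_flag : ∀ (d : ℕ) (P : Set (Fin d → ℝ)), IsSmooth P → IsFlag P → HasIDP P := by
  intro d P hP h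
  obtain ⟨D⟩ := sd_of_smooth P hP
  exact idp D (D.box_of_flag h)

/-- Every smooth lattice polytope in `ℝ^d` all of whose edges have lattice length at least `d` has the
integer decomposition property. -/
theorem old_longEdges : ∀ (d : ℕ) (P : Set (Fin d → ℝ)), IsSmooth P → EdgesAtLeast d P → HasIDP P := by
  intro d P hP h
  obtain ⟨D⟩ := sd_of_smooth P hP
  exact idp D (D.box_of_edges h)

end H98OD
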