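import Pool.Agent.H19.OZ.Flg

/-!
# Vertex parallelepipeds and simplex faces

Let `P` be a smooth lattice polytope.  `box_of_simp`: `P` contains its vertex parallelepipeds unless some face
of `P` is a simplex of dimension `k ≥ 2` with an edge of lattice length less than `k`.

PROOF. Induction on `T.card`; `x = v + ∑ i ∈ T, e v i`, suppose `x ∉ P`. Among the facets `a` violated at `x` take one
with `f a v` minimal; `f a v > 0`. If every edge of `P` at `v` in a direction `i ∈ T` meets the facet `a`, the
hypothesis gives `v + |T| e v i ∈ P` for `i ∈ T`, and `x` is the average of these points: contradiction. Otherwise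
let `i0 ∈ T` be a direction whose edge `E` does not meet the facet `a`, and `p` a vertex in `E` minimising `f a`. For
`l ≠ i0` the facet `u v l` contains `E`, so `u v l = u p (σ l)`; let `l0` be the remaining index at `p`. By induction
`p + ∑ l ∈ T.erase i0, e p (σ l) ∈ P`, so `f a x = f a (this point) + u p l0 (x - p) * c` with `c = u a ⬝ e p l0 ≥ 0`
(`p + e p l0 ∈ E`). Hence `c ≥ 1`, `u p l0 (x - p) < 0`, and `f a v = f a p + u p l0 (v - p) * c ≥ 1 + u p l0 (v - p)`:
the facet `(p, l0)` contradicts minimality.
-/

namespace H98OD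

open H66OD H19OZ Matrix

variable {d : ℕ} {P : Set (Fin d → ℝ)}

/-- The affine function of the facet with index `a.2` at the vertex `a.1`. -/
def pf (D : SD P) (a : (Fin d → ℤ) × Fin d) (z : Fin d → ℝ) : ℝ :=
  toR (D.u a.1 a.2) ⬝ᵥ (z - toR a.1)

theorem pf_add (D : SD P) (a : (Fin d → ℤ) × Fin d) (q e : Fin d → ℝ) :
    pf D a (q + e) = pf D a q + toR (D.u a.1 a.2) ⬝ᵥ e := by
  simp only [pf]
  rw [← dotProduct_add]
  congr 1
  abel

theorem pf_nn (D : SD P) {a : (Fin d → ℤ) × Fin d} (ha : a.1 ∈ D.Vt) {z : Fin d → ℝ} (hz : z ∈ P) :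
    0 ≤ pf D a z := D.cone a.1 ha a.2 z hz

theorem pf_int (D : SD P) (a : (Fin d → ℤ) × Fin d) (q : Fin d → ℤ) :
    pf D a (toR q) = ((D.u a.1 a.2 ⬝ᵥ (q - a.1) : ℤ) : ℝ) := by
  simp only [pf]
  rw [← toR_sub, toR_dot]

theorem pf_exp (D : SD P) (a : (Fin d → ℤ) × Fin d) {p : Fin d → ℤ} (hp : p ∈ D.Vt)
    (z : Fin d → ℝ) : pf D a z = pf D a (toR p) +
      ∑ l, pf D (p, l) z * (toR (D.u a.1 a.2) ⬝ᵥ toR (D.e p l)) := by
  have e1 : pf D a z = pf D a (toR p) + toR (D.u a.1 a.2) ⬝ᵥ (z - toR p) := by
    rw [← pf_add]
    congr 1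
    abel
  rw [e1]
  congr 1
  conv_lhs => rw [D.span p hp (z - toR p)]
  rw [dotProduct_sum]
  refine Finset.sum_congr rfl fun l _ => ?_
  rw [dotProduct_smul, smul_eq_mul]
  rfl

theorem ue (D : SD P) {v : Fin d → ℤ} (hv : v ∈ D.Vt) (i j : Fin d) :
    toR (D.u v i) ⬝ᵥ toR (D.e v j) = if i = j then (1 : ℝ) else 0 := by
  rw [toR_dot, D.dual v hv i j]
  split_ifs <;> simp

theorem pf_self (D : SD P) (v : Fin d → ℤ) (i : Fin d) : pf D (v, i) (toR v) = 0 := by
  simp only [pf]
  rw [sub_self, dotProduct_zero]

/-- Value of the coordinate `l` at `v` in the box point. -/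
theorem pf_box (D : SD P) {v : Fin d → ℤ} (hv : v ∈ D.Vt) (T : Finset (Fin d)) (l : Fin d) :
    pf D (v, l) (toR (v + ∑ i ∈ T, D.e v i)) = if l ∈ T then 1 else 0 := by
  classical
  rw [toR_add, toR_sum, pf_add, pf_self, zero_add, dotProduct_sum]
  rw [Finset.sum_congr rfl fun i _ => ue D hv l i, Finset.sum_ite_eq]

/-- Average of long edge vectors. -/
theorem box_of_long (D : SD P) (v : Fin d → ℤ) {T : Finset (Fin d)} (hT : T.Nonempty)
    (h : ∀ i ∈ T, toR v + (T.card : ℝ) • toR (D.e v i) ∈ P) :
    toR (v + ∑ i ∈ T, D.e v i) ∈ P := by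
  have hc : 0 < T.card := hT.card_pos
  have hcR : (0 : ℝ) < (T.card : ℝ) := by exact_mod_cast hc
  have h5 := D.convex.sum_mem (t := T) (w := fun _ => 1 / (T.card : ℝ))
    (z := fun i => toR v + (T.card : ℝ) • toR (D.e v i))
    (fun i _ => by positivity)
    (by rw [Finset.sum_const, nsmul_eq_mul]; field_simp)
    h
  have h6 : ∑ i ∈ T, (1 / (T.card : ℝ)) • (toR v + (T.card : ℝ) • toR (D.e v i))
      = toR (v + ∑ i ∈ T, D.e v i) := by
    rw [toR_add, toR_sum]
    simp only [smul_add, smul_smul]
    rw [Finset.sum_add_distrib, Finset.sum_const, ← Nat.cast_smul_eq_nsmul ℝ, smul_smul]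
    have h7 : (T.card : ℝ) * (1 / (T.card : ℝ)) = 1 := by field_simp
    have h8 : 1 / (T.card : ℝ) * (T.card : ℝ) = 1 := by field_simp
    rw [h7, h8, one_smul]
    simp only [one_smul]
  rw [h6] at h5
  exact h5

theorem box_of_simp (D : SD P)
    (H : ∀ v ∈ D.Vt, ∀ T : Finset (Fin d), 2 ≤ T.card → ∀ a : (Fin d → ℤ) × Fin d, a.1 ∈ D.Vt →
      0 < pf D a (toR v) →
      (∀ i ∈ T, ∃ t : ℝ, 0 < t ∧ toR v + t • toR (D.e v i) ∈ P ∧
        pf D a (toR v + t • toR (D.e v i)) = 0) →
      ∀ i ∈ T, toR v + (T.card : ℝ) • toR (D.e v i) ∈ P) : D.Box := by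
  classical
  have main : ∀ n : ℕ, ∀ T : Finset (Fin d), T.card = n → ∀ v ∈ D.Vt,
      toR (v + ∑ i ∈ T, D.e v i) ∈ P := by
    intro n
    induction n with
    | zero =>
      intro T hT v hv
      rw [Finset.card_eq_zero.1 hT, Finset.sum_empty, add_zero]
      exact D.vmem hv
    | succ n ih =>
      intro T hT v hv
      rcases Nat.eq_zero_or_pos n with hn | hn
      · rw [hn, zero_add] at hT
        obtain ⟨i, rfl⟩ := Finset.card_eq_one.1 hT
        rw [Finset.sum_singleton]
        exact D.mem v hv i
      by_contra hx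
      set x := v + ∑ i ∈ T, D.e v i with hxdef
      have hvP : toR v ∈ P := D.vmem hv
      set S : Finset ((Fin d → ℤ) × Fin d) :=
        (D.Vt ×ˢ Finset.univ).filter fun a => pf D a (toR x) < 0 with hS
      have hSne : S.Nonempty := by
        by_contra hcon
        rw [Finset.not_nonempty_iff_eq_empty] at hcon
        apply hx
        refine D.mem_of_cone _ fun q hq i => ?_
        by_contra hneg
        have : (q, i) ∈ S := by
          rw [hS, Finset.mem_filter, Finset.mem_product]
          exact ⟨⟨hq, Finset.mem_univ _⟩, not_le.1 hneg⟩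
        rw [hcon] at this
        simp at this
      obtain ⟨a, haS, hamin⟩ := Finset.exists_min_image S (fun a => pf D a (toR v)) hSne
      have haS' := Finset.mem_filter.1 haS
      have haV : a.1 ∈ D.Vt := (Finset.mem_product.1 haS'.1).1
      have hax : pf D a (toR x) < 0 := haS'.2
      have h1 : 0 < pf D a (toR v) := by
        by_contra hcon
        have h0 : pf D a (toR v) = 0 := le_antisymm (not_lt.1 hcon) (pf_nn D haV hvP)
        have h2 : ∀ i, 0 ≤ toR (D.u a.1 a.2) ⬝ᵥ toR (D.e v i) := by
          intro i
          have h3 := pf_nn D haV (D.mem v hv i)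
          rw [toR_add, pf_add, h0, zero_add] at h3
          exact h3
        have h4 : pf D a (toR x) = ∑ i ∈ T, toR (D.u a.1 a.2) ⬝ᵥ toR (D.e v i) := by
          rw [hxdef, toR_add, pf_add, h0, zero_add, toR_sum, dotProduct_sum]
        have h5 : 0 ≤ pf D a (toR x) := by
          rw [h4]
          exact Finset.sum_nonneg fun i _ => h2 i
        linarith
      by_cases hE : ∀ i ∈ T, ∃ z ∈ P, (∀ l, l ≠ i → pf D (v, l) z = 0) ∧ pf D a z = 0
      · -- all edges in directions of `T` meet the facet
        apply hx
        refine box_of_long D v (Finset.card_pos.1 (by omega)) ?_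
        refine H v hv T (by omega) a haV h1 fun i hi => ?_
        obtain ⟨z, hzP, hz, hz0⟩ := hE i hi
        have e1 : z = toR v + (pf D (v, i) z) • toR (D.e v i) := by
          have e2 := D.span v hv (z - toR v)
          rw [Finset.sum_eq_single i] at e2
          · calc z = toR v + (z - toR v) := by abel
              _ = toR v + (toR (D.u v i) ⬝ᵥ (z - toR v)) • toR (D.e v i) :=
                congrArg (fun w => toR v + w) e2
          · intro l _ hl
            have e3 : toR (D.u v l) ⬝ᵥ (z - toR v) = 0 := hz l hl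
            rw [e3, zero_smul]
          · intro h'
            exact absurd (Finset.mem_univ _) h'
        have e2 : 0 ≤ pf D (v, i) z := pf_nn D (a := (v, i)) hv hzP
        refine ⟨pf D (v, i) z, ?_, ?_, ?_⟩
        · rcases e2.lt_or_eq with h | h
          · exact h
          · exfalso
            rw [← h, zero_smul, add_zero] at e1
            rw [e1] at hz0
            linarith
        · rw [← e1]
          exact hzP
        · rw [← e1]
          exact hz0
      · push Not at hE
        obtain ⟨i0, hi0, hE⟩ := hE
        -- the vertex `p` of the edge minimising `f a`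
        obtain ⟨p, hpF, hpmin⟩ := Finset.exists_min_image
          (D.Vt.filter fun p => ∀ l, l ≠ i0 → pf D (v, l) (toR p) = 0)
          (fun p => pf D a (toR p)) ⟨v, Finset.mem_filter.2 ⟨hv, fun l _ => pf_self D v l⟩⟩
        obtain ⟨hpV, hpG⟩ := Finset.mem_filter.1 hpF
        have hpP : toR p ∈ P := D.vmem hpV
        -- minimum on the whole edge
        have h3 : ∀ z ∈ P, (∀ l, l ≠ i0 → pf D (v, l) z = 0) → pf D a (toR p) ≤ pf D a z := by
          intro z hz hz0
          have hsum : ∀ w : Fin d → ℝ, toR (∑ l ∈ Finset.univ.erase i0, D.u v l) ⬝ᵥ (w - toR v) =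
              ∑ l ∈ Finset.univ.erase i0, pf D (v, l) w := by
            intro w
            rw [toR_sum, sum_dotProduct]
            rfl
          refine Flg_face D (toR (∑ l ∈ Finset.univ.erase i0, D.u v l)) (toR v)
            (toR (D.u a.1 a.2)) (toR a.1) _ ?_ ?_ z hz ?_
          · intro w hw
            rw [hsum]
            exact Finset.sum_nonneg fun l _ => pf_nn D (a := (v, l)) hv hw
          · intro q hq hq0
            rw [hsum] at hq0
            refine hpmin q (Finset.mem_filter.2 ⟨hq, fun l hl => ?_⟩)
            exact (Finset.sum_eq_zero_iff_of_nonneg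
              (fun l _ => pf_nn D (a := (v, l)) hv (D.vmem hq))).1 hq0 l
              (Finset.mem_erase.2 ⟨hl, Finset.mem_univ _⟩)
          · rw [hsum]
            exact Finset.sum_eq_zero fun l hl => hz0 l (Finset.ne_of_mem_erase hl)
        -- `f a p ≥ 1`
        have h4 : 1 ≤ pf D a (toR p) := by
          have e1 := pf_int D a p
          have e2 := pf_nn D haV hpP
          have e3 : pf D a (toR p) ≠ 0 := fun h0 => hE _ hpP hpG h0
          rw [e1] at e2 e3 ⊢
          have e4 : 0 ≤ D.u a.1 a.2 ⬝ᵥ (p - a.1) := by exact_mod_cast e2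
          have e5 : D.u a.1 a.2 ⬝ᵥ (p - a.1) ≠ 0 := by exact_mod_cast e3
          have e6 : 1 ≤ D.u a.1 a.2 ⬝ᵥ (p - a.1) := by omega
          exact_mod_cast e6
        -- the indices at `p`
        have hex : ∀ l, ∃ m, l ≠ i0 → D.u p m = D.u v l := by
          intro l
          by_cases hl : l = i0
          · exact ⟨l, fun h => absurd hl h⟩
          · obtain ⟨m, hm⟩ := gf_dual D hv hpV l ⟨hpP, hpG l hl⟩
            exact ⟨m, fun _ => hm⟩
        choose σ hσ using hex
        have hinj : Set.InjOn σ (Finset.univ.erase i0 : Finset (Fin d)) := by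
          intro l hl l' hl' h
          have hl1 : l ≠ i0 := Finset.ne_of_mem_erase hl
          have hl2 : l' ≠ i0 := Finset.ne_of_mem_erase hl'
          by_contra hne
          have e1 := D.dual v hv l l
          have e2 := D.dual v hv l' l
          rw [if_pos rfl, ← hσ l hl1] at e1
          rw [if_neg (Ne.symm hne), ← hσ l' hl2, ← h] at e2
          omega
        set M : Finset (Fin d) := (Finset.univ.erase i0).image σ with hM
        have hMc : M.card + 1 = d := by
          rw [hM, Finset.card_image_of_injOn hinj, Finset.card_erase_of_mem (Finset.mem_univ _),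
            Finset.card_univ, Fintype.card_fin]
          have := i0.pos
          omega
        obtain ⟨l0, -, hl0⟩ : ∃ l0 ∈ (Finset.univ : Finset (Fin d)), l0 ∉ M :=
          Finset.exists_mem_notMem_of_card_lt_card (by
            rw [Finset.card_univ, Fintype.card_fin]
            omega)
        have huniv : insert l0 M = (Finset.univ : Finset (Fin d)) := by
          apply Finset.eq_univ_of_card
          rw [Finset.card_insert_of_notMem hl0, Fintype.card_fin, hMc]
        set c : Fin d → ℝ := fun l => toR (D.u a.1 a.2) ⬝ᵥ toR (D.e p l) with hc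
        -- general expansion
        have hexp : ∀ z, pf D a z = pf D a (toR p) + pf D (p, l0) z * c l0 +
            ∑ l ∈ Finset.univ.erase i0, pf D (p, σ l) z * c (σ l) := by
          intro z
          have e0 : ∀ g : Fin d → ℝ, ∑ l, g l = g l0 + ∑ l ∈ Finset.univ.erase i0, g (σ l) := by
            intro g
            rw [← Finset.sum_image hinj, ← hM, ← Finset.sum_insert hl0, huniv]
          rw [pf_exp D a hpV z, e0]
          ring
        have hpfσ : ∀ l, l ≠ i0 → ∀ z, pf D (p, σ l) z = pf D (v, l) z := by
          intro l hl z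
          have e1 := hpG l hl
          have e3 : toR (D.u v l) ⬝ᵥ (toR p - toR v) = 0 := e1
          change toR (D.u p (σ l)) ⬝ᵥ (z - toR p) = toR (D.u v l) ⬝ᵥ (z - toR v)
          rw [hσ l hl]
          have e2 : z - toR v = (z - toR p) + (toR p - toR v) := by abel
          rw [e2, dotProduct_add, e3, add_zero]
        -- `c l0 ≥ 0`
        have hc0 : 0 ≤ c l0 := by
          have e1 : ∀ l, l ≠ i0 → pf D (v, l) (toR (p + D.e p l0)) = 0 := by
            intro l hl
            rw [← hpfσ l hl, toR_add, pf_add, pf_self, zero_add]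
            rw [ue D hpV, if_neg]
            intro h
            exact hl0 (hM ▸ Finset.mem_image.2 ⟨l, Finset.mem_erase.2 ⟨hl, Finset.mem_univ _⟩, h⟩)
          have e2 := h3 _ (D.mem p hpV l0) e1
          rw [toR_add, pf_add] at e2
          simp only [hc]
          linarith
        -- value at `x`
        have hx1 : pf D a (toR x) = pf D a (toR p) + pf D (p, l0) (toR x) * c l0 +
            ∑ l ∈ T.erase i0, c (σ l) := by
          rw [hexp]
          congr 1
          have e1 : ∀ l ∈ Finset.univ.erase i0, pf D (p, σ l) (toR x) * c (σ l) =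
              if l ∈ T then c (σ l) else 0 := by
            intro l hl
            rw [hpfσ l (Finset.ne_of_mem_erase hl), hxdef, pf_box D hv]
            split_ifs <;> ring
          rw [Finset.sum_congr rfl e1, ← Finset.sum_filter]
          congr 1
          ext l
          simp only [Finset.mem_filter, Finset.mem_erase, Finset.mem_univ, and_true]
        -- induction hypothesis at `p`
        have hih : 0 ≤ pf D a (toR p) + ∑ l ∈ T.erase i0, c (σ l) := by
          have hinj' : Set.InjOn σ (T.erase i0 : Finset (Fin d)) :=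
            hinj.mono fun l hl => by
              rw [Finset.mem_coe] at hl ⊢
              exact Finset.mem_erase.2 ⟨Finset.ne_of_mem_erase hl, Finset.mem_univ _⟩
          have e1 := ih ((T.erase i0).image σ) (by
            rw [Finset.card_image_of_injOn hinj', Finset.card_erase_of_mem hi0, hT]
            omega) p hpV
          have e2 := pf_nn D haV e1
          rw [toR_add, pf_add, toR_sum, Finset.sum_image hinj', dotProduct_sum] at e2
          exact e2
        have hneg : pf D (p, l0) (toR x) * c l0 < 0 := by linarith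
        have hcl : 0 < c l0 := by
          rcases hc0.lt_or_eq with h | h
          · exact h
          · rw [← h, mul_zero] at hneg
            exact absurd hneg (lt_irrefl _)
        have hcl1 : 1 ≤ c l0 := by
          have e1 : c l0 = ((D.u a.1 a.2 ⬝ᵥ D.e p l0 : ℤ) : ℝ) := by simp only [hc]; rw [toR_dot]
          rw [e1] at hcl ⊢
          have e2 : 0 < D.u a.1 a.2 ⬝ᵥ D.e p l0 := by exact_mod_cast hcl
          exact_mod_cast e2
        have hfx : pf D (p, l0) (toR x) < 0 := by
          by_contra hcon
          have := mul_nonneg (not_lt.1 hcon) hcl.le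
          linarith
        have hpl : (p, l0) ∈ S := by
          rw [hS, Finset.mem_filter, Finset.mem_product]
          exact ⟨⟨hpV, Finset.mem_univ _⟩, hfx⟩
        have h8 := hamin _ hpl
        have h9 := hexp (toR v)
        have e3 : ∑ l ∈ Finset.univ.erase i0, pf D (p, σ l) (toR v) * c (σ l) = 0 := by
          refine Finset.sum_eq_zero fun l hl => ?_
          rw [hpfσ l (Finset.ne_of_mem_erase hl), pf_self, zero_mul]
        rw [e3, add_zero] at h9
        have h11 : 0 ≤ pf D (p, l0) (toR v) := pf_nn D (a := (p, l0)) hpV hvP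
        have h12 : pf D (p, l0) (toR v) ≤ pf D (p, l0) (toR v) * c l0 :=
          le_mul_of_one_le_right h11 hcl1
        linarith
  intro v hv T
  exact main _ T rfl v hv

end H98OD
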