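import Pool.Agent.H98.OD.Defs
import Pool.Agent.H98.OD.SBox

/-!
# Simplex faces of smooth polytopes

`Qf D v T` is the face of `P` at the vertex `v` spanned by the edge vectors `e v i`, `i ∈ T`.
-/

namespace H98OD

open H66OD H19OZ Matrix

variable {d : ℕ} {P : Set (Fin d → ℝ)}

/-- The face of `P` at `v` spanned by the edge vectors with indices in `T`. -/
def Qf (D : SD P) (v : Fin d → ℤ) (T : Finset (Fin d)) : Set (Fin d → ℝ) :=
  {z | z ∈ P ∧ ∀ l, l ∉ T → pf D (v, l) z = 0}

theorem pf_aff (D : SD P) (a : (Fin d → ℤ) × Fin d) (s t : ℝ) (x y : Fin d → ℝ) (h : s + t = 1) :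
    pf D a (s • x + t • y) = s * pf D a x + t * pf D a y := by
  simp only [pf]
  have e1 : s • x + t • y - toR a.1 = s • (x - toR a.1) + t • (y - toR a.1) := by
    have e2 : toR a.1 = (s + t) • toR a.1 := by rw [h, one_smul]
    conv_lhs => rw [e2]
    rw [smul_sub, smul_sub, add_smul]
    abel
  rw [e1, dotProduct_add, dotProduct_smul, dotProduct_smul, smul_eq_mul, smul_eq_mul]

theorem qf_self (D : SD P) {v : Fin d → ℤ} (hv : v ∈ D.Vt) (T : Finset (Fin d)) :
    toR v ∈ Qf D v T := ⟨D.vmem hv, fun l _ => pf_self D v l⟩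

theorem qf_mem (D : SD P) {v : Fin d → ℤ} (hv : v ∈ D.Vt) {T : Finset (Fin d)} {i : Fin d}
    (hi : i ∈ T) {t : ℝ} (h : toR v + t • toR (D.e v i) ∈ P) :
    toR v + t • toR (D.e v i) ∈ Qf D v T := by
  refine ⟨h, fun l hl => ?_⟩
  rw [pf_add, pf_self, zero_add, dotProduct_smul, ue D hv, if_neg, smul_zero]
  rintro rfl
  exact hl hi

theorem qf_exp (D : SD P) {v : Fin d → ℤ} (hv : v ∈ D.Vt) {T : Finset (Fin d)} {z : Fin d → ℝ}
    (hz : z ∈ Qf D v T) : z - toR v = ∑ i ∈ T, pf D (v, i) z • toR (D.e v i) := by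
  classical
  have e1 := D.span v hv (z - toR v)
  have e2 : ∑ i, (toR (D.u v i) ⬝ᵥ (z - toR v)) • toR (D.e v i) =
      ∑ i ∈ T, pf D (v, i) z • toR (D.e v i) := by
    symm
    refine Finset.sum_subset (Finset.subset_univ T) fun l _ hl => ?_
    rw [hz.2 l hl, zero_smul]
  exact e1.trans e2

theorem qf_face (D : SD P) {v : Fin d → ℤ} (hv : v ∈ D.Vt) (T : Finset (Fin d)) :
    IsFaceOfDim T.card P (Qf D v T) := by
  classical
  refine ⟨⟨toR v, qf_self D hv T⟩, ?_, ⟨fun z hz => hz.1, ?_⟩, ?_⟩
  · intro x hx y hy a b ha hb hab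
    refine ⟨D.convex hx.1 hy.1 ha hb hab, fun l hl => ?_⟩
    rw [pf_aff D _ a b x y hab, hx.2 l hl, hy.2 l hl]
    ring
  · rintro x hx y hy z hz ⟨a, b, ha, hb, hab, rfl⟩
    refine ⟨hx, fun l hl => ?_⟩
    have h1 := hz.2 l hl
    rw [pf_aff D _ a b x y hab] at h1
    have h2 := pf_nn D (a := (v, l)) hv hx
    have h3 := pf_nn D (a := (v, l)) hv hy
    nlinarith [mul_nonneg ha.le h2, mul_nonneg hb.le h3]
  · have hspan : vectorSpan ℝ (Qf D v T) =
        Submodule.span ℝ (Set.range fun i : T => toR (D.e v i.1)) := by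
      refine le_antisymm ?_ ?_
      · rw [vectorSpan_def, Submodule.span_le]
        rintro w ⟨x, hx, y, hy, rfl⟩
        have e1 : x -ᵥ y = (x - toR v) - (y - toR v) := by
          rw [vsub_eq_sub]
          abel
        beta_reduce
        rw [e1, qf_exp D hv hx, qf_exp D hv hy, SetLike.mem_coe]
        refine Submodule.sub_mem _ ?_ ?_
        · exact Submodule.sum_mem _ fun i hi => Submodule.smul_mem _ _
            (Submodule.subset_span ⟨⟨i, hi⟩, rfl⟩)
        · exact Submodule.sum_mem _ fun i hi => Submodule.smul_mem _ _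
            (Submodule.subset_span ⟨⟨i, hi⟩, rfl⟩)
      · rw [Submodule.span_le]
        rintro w ⟨i, rfl⟩
        have h1 := D.mem v hv i.1
        have h2 : toR v + (1 : ℝ) • toR (D.e v i.1) ∈ P := by
          rw [one_smul, ← toR_add]
          exact h1
        have h3 := vsub_mem_vectorSpan ℝ (qf_mem D hv i.2 h2) (qf_self D hv T)
        rwa [vsub_eq_sub, one_smul, add_sub_cancel_left] at h3
    have hli : LinearIndependent ℝ fun i : T => toR (D.e v i.1) := by
      rw [Fintype.linearIndependent_iff]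
      intro g hg i
      have h1 : toR (D.u v i.1) ⬝ᵥ (∑ j : T, g j • toR (D.e v j.1)) = 0 := by
        rw [hg, dotProduct_zero]
      rw [dotProduct_sum, Finset.sum_eq_single i] at h1
      · rw [dotProduct_smul, ue D hv, if_pos rfl, smul_eq_mul, mul_one] at h1
        exact h1
      · intro j _ hj
        rw [dotProduct_smul, ue D hv, if_neg, smul_zero]
        intro h
        exact hj (Subtype.ext h.symm)
      · intro h'
        exact absurd (Finset.mem_univ _) h'
    rw [hspan, finrank_span_eq_card hli, Fintype.card_coe]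

/-- If all edges at `v` in directions of `T` end in a facet not containing `v`, the face is a simplex. -/
theorem qf_simplex (D : SD P) {v : Fin d → ℤ} (hv : v ∈ D.Vt) (T : Finset (Fin d))
    {a : (Fin d → ℤ) × Fin d} (ha : a.1 ∈ D.Vt) (h0 : 0 < pf D a (toR v)) (t : Fin d → ℝ)
    (ht : ∀ i ∈ T, 0 < t i ∧ toR v + t i • toR (D.e v i) ∈ P ∧
      pf D a (toR v + t i • toR (D.e v i)) = 0) :
    Qf D v T = convexHull ℝ (insert (toR v) ((fun i => toR v + t i • toR (D.e v i)) '' (T : Set (Fin d)))) := by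
  classical
  apply Set.Subset.antisymm
  · intro z hz
    have e1 := qf_exp D hv hz
    have e2 : ∀ i ∈ T, toR (D.u a.1 a.2) ⬝ᵥ toR (D.e v i) = -(pf D a (toR v)) / t i := by
      intro i hi
      obtain ⟨h1, -, h2⟩ := ht i hi
      rw [pf_add, dotProduct_smul, smul_eq_mul] at h2
      rw [eq_div_iff h1.ne']
      linarith
    have e3 : pf D a z = pf D a (toR v) * (1 - ∑ i ∈ T, pf D (v, i) z / t i) := by
      have e4 : z = toR v + (z - toR v) := by abel
      have e5 : pf D a z = pf D a (toR v) + toR (D.u a.1 a.2) ⬝ᵥ (z - toR v) := by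
        rw [← pf_add, ← e4]
      rw [e5, e1, dotProduct_sum, mul_sub, mul_one, Finset.mul_sum, sub_eq_add_neg,
        ← Finset.sum_neg_distrib]
      congr 1
      refine Finset.sum_congr rfl fun i hi => ?_
      rw [dotProduct_smul, smul_eq_mul, e2 i hi]
      have := (ht i hi).1.ne'
      field_simp
    have e6 : 0 ≤ pf D a z := pf_nn D ha hz.1
    have e7 : 0 ≤ 1 - ∑ i ∈ T, pf D (v, i) z / t i := by
      rw [e3] at e6
      exact nonneg_of_mul_nonneg_right e6 h0
    have hc := convex_convexHull ℝ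
      (insert (toR v) ((fun i => toR v + t i • toR (D.e v i)) '' (T : Set (Fin d))))
    have hz2 : z = (1 - ∑ i ∈ T, pf D (v, i) z / t i) • toR v +
        ∑ i ∈ T, (pf D (v, i) z / t i) • (toR v + t i • toR (D.e v i)) := by
      have e8 : ∑ i ∈ T, (pf D (v, i) z / t i) • (toR v + t i • toR (D.e v i)) =
          (∑ i ∈ T, pf D (v, i) z / t i) • toR v + (z - toR v) := by
        rw [e1, Finset.sum_smul, ← Finset.sum_add_distrib]
        refine Finset.sum_congr rfl fun i hi => ?_
        rw [smul_add, smul_smul, div_mul_cancel₀ _ (ht i hi).1.ne']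
      rw [e8, ← add_assoc, ← add_smul, sub_add_cancel, one_smul]
      abel
    rw [hz2]
    have h5 := hc.sum_mem (t := insert none (T.image some))
      (w := fun o => o.elim (1 - ∑ i ∈ T, pf D (v, i) z / t i) fun i => pf D (v, i) z / t i)
      (z := fun o => o.elim (toR v) fun i => toR v + t i • toR (D.e v i))
      (by
        intro o ho
        rw [Finset.mem_insert, Finset.mem_image] at ho
        rcases ho with rfl | ⟨i, hi, rfl⟩
        · exact e7
        · exact div_nonneg (pf_nn D (a := (v, i)) hv hz.1) (ht i hi).1.le)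
      (by
        rw [Finset.sum_insert (by simp), Finset.sum_image (by simp)]
        simp)
      (by
        intro o ho
        rw [Finset.mem_insert, Finset.mem_image] at ho
        apply subset_convexHull
        rcases ho with rfl | ⟨i, hi, rfl⟩
        · exact Set.mem_insert _ _
        · exact Set.mem_insert_of_mem _ ⟨i, hi, rfl⟩)
    rw [Finset.sum_insert (by simp), Finset.sum_image (by simp)] at h5
    exact h5
  · refine convexHull_min ?_ (qf_face D hv T).2.1
    rintro w (rfl | ⟨i, hi, rfl⟩)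
    · exact qf_self D hv T
    · exact qf_mem D hv hi (ht i hi).2.1

theorem box_of_noTriangle (D : SD P) (h : NoTriangularFace P) : D.Box := by
  classical
  refine box_of_simp D fun v hv T hT a ha h0 hE => ?_
  exfalso
  obtain ⟨i, hi, j, hj, hij⟩ := Finset.one_lt_card.1 (show 1 < T.card by omega)
  have hE' : ∀ l, ∃ t : ℝ, l ∈ T → 0 < t ∧ toR v + t • toR (D.e v l) ∈ P ∧
      pf D a (toR v + t • toR (D.e v l)) = 0 := by
    intro l
    by_cases hl : l ∈ T
    · obtain ⟨t, ht⟩ := hE l hl
      exact ⟨t, fun _ => ht⟩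
    · exact ⟨0, fun h => absurd h hl⟩
  choose t ht using hE'
  have h1 := qf_face D hv {i, j}
  rw [Finset.card_pair hij] at h1
  refine h _ h1 ⟨toR v, toR v + t i • toR (D.e v i), toR v + t j • toR (D.e v j), ?_⟩
  rw [qf_simplex D hv {i, j} ha h0 t]
  · congr 2
    rw [Finset.coe_insert, Finset.coe_singleton, Set.image_pair]
  · intro l hl
    rw [Finset.mem_insert, Finset.mem_singleton] at hl
    rcases hl with rfl | rfl
    · exact ht _ hi
    · exact ht _ hj

theorem box_of_longSimplex (D : SD P) (h : LongSimplexFaces P)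
    (hns : ∀ v ∈ D.Vt, ∀ a : (Fin d → ℤ) × Fin d, a.1 ∈ D.Vt → 0 < pf D a (toR v) →
      ¬∀ i, ∃ t : ℝ, 0 < t ∧ toR v + t • toR (D.e v i) ∈ P ∧
        pf D a (toR v + t • toR (D.e v i)) = 0) : D.Box := by
  classical
  refine box_of_simp D fun v hv T hT a ha h0 hE i hi => ?_
  have hE' : ∀ l, ∃ t : ℝ, l ∈ T → 0 < t ∧ toR v + t • toR (D.e v l) ∈ P ∧
      pf D a (toR v + t • toR (D.e v l)) = 0 := by
    intro l
    by_cases hl : l ∈ T
    · obtain ⟨t, ht⟩ := hE l hl
      exact ⟨t, fun _ => ht⟩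
    · exact ⟨0, fun h => absurd h hl⟩
  choose t ht using hE'
  have h1 := qf_face D hv T
  have h2 := qf_simplex D hv T ha h0 t ht
  have h3 : T.card < d := by
    by_contra hcon
    have h4 : T = Finset.univ := by
      apply Finset.eq_univ_of_card
      have := T.card_le_univ
      rw [Fintype.card_fin] at this ⊢
      omega
    exact hns v hv a ha h0 fun i => hE i (by rw [h4]; exact Finset.mem_univ _)
  refine h T.card (Qf D v T) hT h3 ⟨h1, ?_⟩ (toR v) (D.ext v hv) (qf_self D hv T) (D.e v i) ?_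
    ⟨t i, (ht i hi).1, qf_mem D hv hi (ht i hi).2.1⟩
  · refine ⟨Fin.cons (toR v) fun j : Fin T.card =>
      toR v + t (T.equivFin.symm j).1 • toR (D.e v (T.equivFin.symm j).1), ?_⟩
    rw [h2]
    congr 1
    rw [Fin.range_cons]
    congr 1
    ext w
    constructor
    · rintro ⟨l, hl, rfl⟩
      refine ⟨T.equivFin ⟨l, hl⟩, ?_⟩
      simp
    · rintro ⟨j, rfl⟩
      exact ⟨(T.equivFin.symm j).1, (T.equivFin.symm j).2, rfl⟩
  · rw [← D.edge v hv]
    exact ⟨i, rfl⟩

end H98OD
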